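import Pool.Agent.Q161.ESM.Stm1
import Pool.Agent.Q92.EA.Crt

/-!
# Job FR of project ESM (helper161): the mean value of the local densities
-/

set_option autoImplicit false

namespace Pool.Agent.Q195.ESM.FR

open Finset
open Pool.Agent.Q161.ESM

variable {ι : Type} [Fintype ι] [DecidableEq ι] {n : ι → ℕ}

/-- vectors modulo `l`, only the blocks in `S` -/
abbrev Ws (n : ι → ℕ) (S : Finset ι) (l : ℕ) : Type := (i : {i // i ∈ S}) → Fin (n i) → ZMod l

/-- a vector modulo `l`, given by its blocks in `S` and by an integral vector outside `S` -/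
def ext (S : Finset ι) (l : ℕ) (x : Vc n) (h : Ws n S l) : Vm n l :=
  fun i => if hi : i ∈ S then h ⟨i, hi⟩ else rd n l x i

/-- an integral vector, given by its blocks in `S` modulo `N` and by an integral vector outside `S` -/
def Psi (S : Finset ι) (N : ℕ) (x : Vc n) (g : Ws n S N) : Vc n :=
  fun i => if hi : i ∈ S then fun j => ((g ⟨i, hi⟩ j).val : ℤ) else x i

omit [Fintype ι] in
theorem ext_inj (S : Finset ι) (l : ℕ) (x : Vc n) : Function.Injective (ext S l x) := by
  intro g g' h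
  funext i j
  have h1 := congrFun (congrFun h i.1) j
  unfold ext at h1
  rw [dif_pos i.2, dif_pos i.2] at h1
  exact h1

omit [Fintype ι] in
theorem ncard_ext (Om : (l : ℕ) → Set (Vm n l)) (S : Finset ι) (l : ℕ) (x : Vc n) :
    {y : Vm n l | y ∈ Om l ∧ ∀ i, i ∉ S → y i = rd n l x i}.ncard =
      {h : Ws n S l | ext S l x h ∈ Om l}.ncard := by
  rw [← Set.ncard_image_of_injective _ (ext_inj S l x)]
  congr 1
  ext y
  simp only [Set.mem_ofPred_eq, Set.mem_image]
  constructor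
  · rintro ⟨h1, h2⟩
    have h3 : ext S l x (fun i => y i.1) = y := by
      funext i
      unfold ext
      by_cases hi : i ∈ S
      · rw [dif_pos hi]
      · rw [dif_neg hi]
        exact (h2 i hi).symm
    exact ⟨fun i => y i.1, by rw [h3]; exact h1, h3⟩
  · rintro ⟨g, hg, rfl⟩
    refine ⟨hg, fun i hi => ?_⟩
    unfold ext
    rw [dif_neg hi]

omit [Fintype ι] [DecidableEq ι] in
theorem card_Ws (S : Finset ι) (l : ℕ) : Nat.card (Ws n S l) = l ^ (∑ i ∈ S, n i) := by
  rw [Nat.card_pi]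
  have h : ∀ i : {i // i ∈ S}, Nat.card (Fin (n i) → ZMod l) = l ^ n i.1 := by
    intro i
    rw [Nat.card_fun, Nat.card_zmod, Nat.card_eq_fintype_card, Fintype.card_fin]
  rw [Finset.prod_congr rfl fun i _ => h i, Finset.prod_pow_eq_pow_sum]
  congr 1
  exact Finset.sum_coe_sort S n

omit [Fintype ι] in
theorem rd_Psi (S : Finset ι) {N l : ℕ} (hN : 0 < N) (hd : l ∣ N) (x : Vc n) (g : Ws n S N) :
    rd n l (Psi S N x g) = ext S l x (fun i j => ZMod.castHom hd (ZMod l) (g i j)) := by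
  have : NeZero N := ⟨hN.ne'⟩
  funext i j
  unfold rd ext Psi
  by_cases hi : i ∈ S
  · rw [dif_pos hi, dif_pos hi]
    change (((g ⟨i, hi⟩ j).val : ℤ) : ZMod l) = ZMod.castHom hd (ZMod l) (g ⟨i, hi⟩ j)
    rw [ZMod.castHom_apply, Int.cast_natCast, ZMod.natCast_val]
  · rw [dif_neg hi, dif_neg hi]
    rfl

open Classical in
/-- the Chinese remainder theorem count -/
theorem count (Om : (l : ℕ) → Set (Vm n l)) (S : Finset ι) (P : Finset ℕ) (hP : ∀ l ∈ P, l.Prime)
    {N : ℕ} (hN : 0 < N) (hd : ∀ l ∈ P, l ∣ N) (x : Vc n) :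
    (({g : Ws n S N | ∀ l ∈ P, rd n l (Psi S N x g) ∈ Om l}.ncard : ℕ) : ℝ) =
      (N : ℝ) ^ (∑ i ∈ S, n i) * ∏ l ∈ P, frac n Om S l x := by
  have hN0 : NeZero N := ⟨hN.ne'⟩
  have hl0 : ∀ l : P, NeZero (l : ℕ) := fun l => ⟨(hP l l.2).ne_zero⟩
  have hfG : Finite (Ws n S N) := inferInstance
  have hfl : ∀ l : P, Finite (Ws n S (l : ℕ)) := fun l => inferInstance
  let φ : Ws n S N →+ ((l : P) → Ws n S (l : ℕ)) :=
    { toFun := fun g l i j => ZMod.castHom (hd l l.2) (ZMod (l : ℕ)) (g i j)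
      map_zero' := by
        funext l i j
        exact map_zero _
      map_add' := by
        intro g g'
        funext l i j
        exact map_add _ _ _ }
  have hφ : ∀ g l i j, φ g l i j = ZMod.castHom (hd l l.2) (ZMod (l : ℕ)) (g i j) :=
    fun _ _ _ _ => rfl
  have hsurj : Function.Surjective φ := by
    intro h
    have hk : ∀ (i : {i // i ∈ S}) (j : Fin (n i)), ∃ k : ℕ, ∀ l : P, (k : ZMod (l : ℕ)) = h l i j := by
      intro i j
      have hpp : Set.Pairwise (↑P : Set ℕ) (Function.onFun Nat.Coprime (fun l : ℕ => l)) := by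
        intro a ha b hb hab
        exact (Nat.coprime_primes (hP a ha) (hP b hb)).2 hab
      let a : ℕ → ℕ := fun l => if hl : l ∈ P then (h ⟨l, hl⟩ i j).val else 0
      obtain ⟨k, hk⟩ := Nat.chineseRemainderOfFinset a (fun l : ℕ => l) P
        (fun l hl => (hP l hl).ne_zero) hpp
      refine ⟨k, fun l => ?_⟩
      have h1 := hk l l.2
      have h2 : a l = (h l i j).val := by
        change (if hl : (l : ℕ) ∈ P then (h ⟨l, hl⟩ i j).val else 0) = _
        rw [dif_pos l.2]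
      rw [h2] at h1
      have h3 := (ZMod.natCast_eq_natCast_iff _ _ _).2 h1
      rw [h3, ZMod.natCast_zmod_val]
    choose k hk using hk
    refine ⟨fun i j => (k i j : ZMod N), ?_⟩
    funext l i j
    rw [hφ, map_natCast, hk]
  have h1 := Pool.Agent.Q92.EA.ncard_preimage φ hsurj
    (Set.pi Set.univ fun l : P => {h : Ws n S (l : ℕ) | ext S (l : ℕ) x h ∈ Om l})
  have h2 : (φ ⁻¹' (Set.pi Set.univ fun l : P => {h : Ws n S (l : ℕ) | ext S (l : ℕ) x h ∈ Om l})) =
      {g : Ws n S N | ∀ l ∈ P, rd n l (Psi S N x g) ∈ Om l} := by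
    ext g
    simp only [Set.mem_preimage, Set.mem_pi, Set.mem_univ, true_imp_iff, Set.mem_ofPred_eq]
    constructor
    · intro h l hl
      rw [rd_Psi S hN (hd l hl) x g]
      exact h ⟨l, hl⟩
    · intro h l
      have h3 := h l l.2
      rw [rd_Psi S hN (hd l l.2) x g] at h3
      exact h3
  rw [h2] at h1
  have h4 : (Set.pi Set.univ fun l : P => {h : Ws n S (l : ℕ) | ext S (l : ℕ) x h ∈ Om l}).ncard =
      ∏ l ∈ P, {y : Vm n l | y ∈ Om l ∧ ∀ i, i ∉ S → y i = rd n l x i}.ncard := by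
    rw [← Nat.card_coe_set_eq, Nat.card_congr (Equiv.Set.univPi _), Nat.card_pi]
    rw [← Finset.prod_coe_sort P]
    refine Finset.prod_congr rfl fun l _ => ?_
    rw [Nat.card_coe_set_eq, ncard_ext]
  have h5 : Nat.card ((l : P) → Ws n S (l : ℕ)) = ∏ l ∈ P, l ^ (∑ i ∈ S, n i) := by
    rw [Nat.card_pi, ← Finset.prod_coe_sort P]
    exact Finset.prod_congr rfl fun l _ => card_Ws S _
  rw [h4, h5, card_Ws] at h1
  have hpos : (0 : ℝ) < ∏ l ∈ P, (l : ℝ) ^ (∑ i ∈ S, n i) :=
    Finset.prod_pos fun l hl => pow_pos (by exact_mod_cast (hP l hl).pos) _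
  have h6 := congrArg (fun k : ℕ => (k : ℝ)) h1
  simp only [Nat.cast_mul, Nat.cast_prod, Nat.cast_pow] at h6
  unfold frac
  rw [Finset.prod_div_distrib, ← mul_div_assoc, eq_div_iff hpos.ne', h6]
  ring

open Classical in
theorem fr : S_GS → S_FR := by
  intro hGS ι _ _ n A hn hA
  obtain ⟨C, hC, h⟩ := hGS ι n A hn hA
  refine ⟨C, hC, ?_⟩
  intro Om S1 S2 z a H Y P Pb X hS hne hY hHY hPP hP hPb hfr hX
  set Q : Finset ℕ := P ∪ Pb with hQ
  have hpos : 0 < ∏ l ∈ Q, l := Finset.prod_pos (fun l hl => (hP l hl).1.pos)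
  have hKY : Y ≤ (⌈Y⌉₊ : ℝ) := Nat.le_ceil Y
  have hKpos : 0 < ⌈Y⌉₊ := Nat.ceil_pos.2 (by linarith)
  obtain ⟨N, hNdef⟩ : ∃ N : ℕ, N = (∏ l ∈ Q, l) * ⌈Y⌉₊ := ⟨_, rfl⟩
  have hYN : Y ≤ (N : ℝ) := by
    rw [hNdef]
    push_cast
    have h1 : (1 : ℝ) ≤ ∏ l ∈ Q, (l : ℝ) := by
      have : (1 : ℝ) ≤ ((∏ l ∈ Q, l : ℕ) : ℝ) := by exact_mod_cast hpos
      push_cast at this
      exact this
    nlinarith
  have hN : 0 < N := by
    rw [hNdef]
    exact Nat.mul_pos hpos hKpos
  have hN0 : NeZero N := ⟨hN.ne'⟩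
  have hd : ∀ l ∈ Q, l ∣ N := by
    intro l hl
    rw [hNdef]
    exact (Finset.dvd_prod_of_mem (fun l => l) hl).mul_right _
  -- the vectors
  let G : Vc n → Finset (Ws n S2 N) := fun x =>
    univ.filter (fun g => ∀ l ∈ Q, rd n l (Psi S2 N x g) ∈ Om l)
  have hG : ∀ x, ((G x).card : ℝ) = (N : ℝ) ^ (∑ i ∈ S2, n i) * ∏ l ∈ Q, frac n Om S2 l x := by
    intro x
    rw [← count Om S2 Q (fun l hl => (hP l hl).1) hN hd x, ← Set.ncard_coe_finset]
    congr 2
    ext g
    simp [G]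
  have hxz : ∀ x ∈ X, ∀ i ∈ S2, x i = z i := fun x hx i hi =>
    (hX x hx).2 i (fun h1 => (Finset.disjoint_left.1 hS h1) hi)
  let X' : Finset (Vc n) := (X.sigma G).image (fun p => Psi S2 N p.1 p.2)
  have hcard : (X'.card : ℝ) = ∑ x ∈ X, (N : ℝ) ^ (∑ i ∈ S2, n i) * ∏ l ∈ Q, frac n Om S2 l x := by
    have h1 : X'.card = ∑ x ∈ X, (G x).card := by
      rw [Finset.card_image_of_injOn, Finset.card_sigma]
      rintro ⟨x, g⟩ hx ⟨x', g'⟩ hx' he
      rw [Finset.mem_coe, Finset.mem_sigma] at hx hx'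
      have he' : Psi S2 N x g = Psi S2 N x' g' := he
      have e1 : x = x' := by
        funext i
        by_cases hi : i ∈ S2
        · rw [hxz x hx.1 i hi, hxz x' hx'.1 i hi]
        · have h2 := congrFun he' i
          unfold Psi at h2
          rwa [dif_neg hi, dif_neg hi] at h2
      subst e1
      have e2 : g = g' := by
        funext i j
        have h2 := congrFun (congrFun he' i.1) j
        unfold Psi at h2
        rw [dif_pos i.2, dif_pos i.2] at h2
        have h3 : (g i j).val = (g' i j).val := by exact_mod_cast h2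
        exact ZMod.val_injective N h3
      rw [e2]
    rw [h1, Nat.cast_sum]
    exact Finset.sum_congr rfl fun x _ => hG x
  have h1 := h Om (S1 ∪ S2) z (fun i => if i ∈ S2 then 0 else a i)
    (fun i => if i ∈ S2 then N else H i) Y P Pb X' (hne.mono Finset.subset_union_left) hY (by
      intro i hi
      change Y ≤ ((if i ∈ S2 then N else H i : ℕ) : ℝ)
      by_cases hi2 : i ∈ S2
      · rw [if_pos hi2]
        exact hYN
      · rw [if_neg hi2]
        exact hHY i ((Finset.mem_union.1 hi).resolve_right hi2)) hPP hP hPb hfr (by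
      intro w hw
      rw [Finset.mem_image] at hw
      obtain ⟨⟨x, g⟩, hp, rfl⟩ := hw
      rw [Finset.mem_sigma] at hp
      obtain ⟨hx, hg⟩ := hp
      have hg' : ∀ l ∈ Q, rd n l (Psi S2 N x g) ∈ Om l := by
        have := (Finset.mem_filter.1 hg).2
        exact this
      refine ⟨⟨?_, ?_⟩, hg'⟩
      · intro i hi j
        change (if i ∈ S2 then (0 : Vc n) i else a i) j ≤ Psi S2 N x g i j ∧ Psi S2 N x g i j <
          (if i ∈ S2 then (0 : Vc n) i else a i) j + ((if i ∈ S2 then N else H i : ℕ) : ℤ)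
        unfold Psi
        by_cases hi2 : i ∈ S2
        · rw [if_pos hi2, if_pos hi2, dif_pos hi2]
          refine ⟨?_, ?_⟩
          · change (0 : ℤ) ≤ _
            positivity
          · change _ < (0 : ℤ) + _
            rw [zero_add]
            exact_mod_cast ZMod.val_lt _
        · rw [if_neg hi2, if_neg hi2, dif_neg hi2]
          exact (hX x hx).1 i ((Finset.mem_union.1 hi).resolve_right hi2) j
      · intro i hi
        rw [Finset.mem_union, not_or] at hi
        change Psi S2 N x g i = z i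
        unfold Psi
        rw [dif_neg hi.2]
        exact (hX x hx).2 i hi.1)
  rw [hcard, ← Finset.mul_sum] at h1
  have h2 : ∏ i ∈ S1 ∪ S2, (((if i ∈ S2 then N else H i : ℕ) : ℝ)) ^ n i =
      (∏ i ∈ S1, (H i : ℝ) ^ n i) * (N : ℝ) ^ (∑ i ∈ S2, n i) := by
    rw [Finset.prod_union hS, ← Finset.prod_pow_eq_pow_sum]
    congr 1
    · refine Finset.prod_congr rfl fun i hi => ?_
      rw [if_neg (Finset.disjoint_left.1 hS hi)]
    · refine Finset.prod_congr rfl fun i hi => ?_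
      rw [if_pos hi]
  rw [h2] at h1
  have hNp : (0 : ℝ) < (N : ℝ) ^ (∑ i ∈ S2, n i) := pow_pos (by exact_mod_cast hN) _
  have h3 : (N : ℝ) ^ (∑ i ∈ S2, n i) * ∑ x ∈ X, ∏ l ∈ Q, frac n Om S2 l x ≤
      (N : ℝ) ^ (∑ i ∈ S2, n i) *
        (C * (∏ i ∈ S1, (H i : ℝ) ^ n i) * ∏ l ∈ Q, frac n Om (S1 ∪ S2) l z) := by
    refine h1.trans (le_of_eq ?_)
    ring
  exact le_of_mul_le_mul_left h3 hNp

end Pool.Agent.Q195.ESM.FR
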